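import Pool.Agent.Lib_helper74.TG.Key

/-!
# Sums and differences of elements of a set of density one half
-/

set_option autoImplicit false

namespace Pool.Agent.TG

open Finset Classical

/-- Every large `N` is a sum, and every `k + 2` a difference, of two elements of `A`, up to a number
at most `2`, in at least `c N` ways. -/
def Reps (A : Set ℕ) : Prop :=
  ∃ (c : ℝ) (N₀ : ℕ), 0 < c ∧ ∀ N : ℕ, N₀ ≤ N →
    (∃ g : ℕ, g ≤ 2 ∧
      c * N ≤ (((range N).filter fun x => x ∈ A ∧ ∃ y ∈ A, x + y + g = N).card : ℝ)) ∧
    ∀ k : ℕ, ∃ g : ℕ, g ≤ 2 ∧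
      c * N ≤ (((range N).filter fun x => x ∈ A ∧ ∃ y ∈ A, x + (k + 2) = y + g).card : ℝ)

/-- The hypothesis on the density. -/
def Half (A : Set ℕ) : Prop :=
  ∀ ε : ℝ, 0 < ε → ∃ L : ℕ, ∀ a N : ℕ, L ≤ N →
    (1 / 2 - ε) * N ≤ (((range N).filter fun j => a + j ∈ A).card : ℝ)

/-- A window contains an element. -/
theorem half_window {A : Set ℕ} {L : ℕ} (hL : 0 < L)
    (h : ∀ a N : ℕ, L ≤ N → (1 / 4 : ℝ) * N ≤ (((range N).filter fun j => a + j ∈ A).card : ℝ))
    (a : ℕ) : ∃ x, a ≤ x ∧ x < a + L ∧ x ∈ A := by
  have h1 := h a L le_rfl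
  have hL' : (0 : ℝ) < L := by exact_mod_cast hL
  have h2 : (0 : ℝ) < (((range L).filter fun j => a + j ∈ A).card : ℝ) := by
    refine lt_of_lt_of_le ?_ h1
    positivity
  have h3 : 0 < ((range L).filter fun j => a + j ∈ A).card := by exact_mod_cast h2
  obtain ⟨j, hj⟩ := card_pos.1 h3
  rw [mem_filter, mem_range] at hj
  exact ⟨a + j, by omega, by omega, hj.2⟩

/-- Reflection of a window. -/
theorem card_reflect (A : Set ℕ) (N m : ℕ) (h : N ≤ m + 1) :
    ((range N).filter fun x => m - x ∈ A).card =
      ((range N).filter fun j => (m + 1 - N) + j ∈ A).card := by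
  apply card_bij' (fun x _ => N - 1 - x) (fun x _ => N - 1 - x)
  · intro x hx
    rw [mem_filter, mem_range] at hx ⊢
    refine ⟨by omega, ?_⟩
    have : m + 1 - N + (N - 1 - x) = m - x := by omega
    rw [this]
    exact hx.2
  · intro x hx
    rw [mem_filter, mem_range] at hx ⊢
    refine ⟨by omega, ?_⟩
    have : m - (N - 1 - x) = m + 1 - N + x := by omega
    rw [this]
    exact hx.2
  · intro x hx
    rw [mem_filter, mem_range] at hx
    omega
  · intro x hx
    rw [mem_filter, mem_range] at hx
    omega

theorem caseA {A : Set ℕ} (hA : Half A) : Reps A := by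
  obtain ⟨L₀, hL₀⟩ := hA (1 / 4) (by norm_num)
  obtain ⟨L, hLdef⟩ : ∃ L, L = L₀ + 1 := ⟨_, rfl⟩
  have hL : 0 < L := by omega
  have hLR : (0 : ℝ) < L := by exact_mod_cast hL
  have hw : ∀ a : ℕ, ∃ x, a ≤ x ∧ x < a + L ∧ x ∈ A := by
    apply half_window hL
    intro a N hN
    have := hL₀ a N (by omega)
    norm_num at this ⊢
    exact this
  obtain ⟨M, hM⟩ := hA (1 / (16 * L)) (by positivity)
  refine ⟨1 / (16 * L), M + 2 * L + 1, by positivity, fun N hN => ⟨?_, ?_⟩⟩
  · -- sums
    by_contra hcon
    push Not at hcon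
    have hg0 := hcon 0 (by omega)
    have hg1 := hcon 1 (by omega)
    have h := key N L hL (fun x => x ∈ A) (fun x => N - x ∈ A) (1 / (16 * L)) (1 / (16 * L))
      (by simpa using hM 0 N (by omega))
      (by
        rw [card_reflect A N N (by omega)]
        exact hM _ N (by omega))
      (by
        have h1 : ((range N).filter fun x => N - (x + 1) ∈ A) =
            (range N).filter fun x => (N - 1) - x ∈ A := by
          apply filter_congr
          intro x _
          rw [Nat.sub_sub, add_comm x 1]
        rw [h1, card_reflect A N (N - 1) (by omega)]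
        exact hM _ N (by omega))
      (by
        refine le_trans ?_ hg0.le
        refine Nat.cast_le.2 (card_le_card ?_)
        intro x hx
        rw [mem_filter, mem_range] at hx ⊢
        exact ⟨hx.1, hx.2.1, N - x, hx.2.2, by omega⟩)
      (by
        refine le_trans ?_ hg1.le
        refine Nat.cast_le.2 (card_le_card ?_)
        intro x hx
        rw [mem_filter, mem_range] at hx ⊢
        exact ⟨hx.1, hx.2.1, N - (x + 1), hx.2.2, by omega⟩)
      (by
        intro k hk
        refine ⟨?_, ?_⟩
        · obtain ⟨x, h1, h2, h3⟩ := hw (k * L)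
          exact ⟨x, h1, by rw [add_mul, one_mul]; exact h2, h3⟩
        · obtain ⟨x, h1, h2, h3⟩ := hw (N + 1 - (k + 1) * L)
          rw [add_mul, one_mul] at hk h1 h2 ⊢
          refine ⟨N - x, by omega, by omega, ?_⟩
          have : N - (N - x) = x := by omega
          rw [this]
          exact h3)
    have h2 : (4 * (1 / (16 * (L : ℝ))) + 4 * (1 / (16 * L))) * N = (N : ℝ) / L / 2 := by
      field_simp
      ring
    rw [h2] at h
    have h3 : (N : ℝ) / L ≤ 2 := by linarith
    rw [div_le_iff₀ hLR] at h3
    have h4 : N ≤ 2 * L := by exact_mod_cast h3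
    omega
  · -- differences
    intro k
    by_contra hcon
    push Not at hcon
    have hg0 := hcon 0 (by omega)
    have hg1 := hcon 1 (by omega)
    have h := key N L hL (fun x => x ∈ A) (fun x => x + (k + 1) ∈ A) (1 / (16 * L)) (1 / (16 * L))
      (by simpa using hM 0 N (by omega))
      (by
        have h1 := hM (k + 1) N (by omega)
        have h2 : ((range N).filter fun x => x + (k + 1) ∈ A) =
            (range N).filter fun x => (k + 1) + x ∈ A := by
          apply filter_congr
          intro x _
          rw [add_comm]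
        rw [h2]
        exact h1)
      (by
        have h1 := hM (k + 2) N (by omega)
        have h2 : ((range N).filter fun x => x + 1 + (k + 1) ∈ A) =
            (range N).filter fun x => (k + 2) + x ∈ A := by
          apply filter_congr
          intro x _
          have : x + 1 + (k + 1) = (k + 2) + x := by omega
          rw [this]
        rw [h2]
        exact h1)
      (by
        refine le_trans ?_ hg1.le
        refine Nat.cast_le.2 (card_le_card ?_)
        intro x hx
        rw [mem_filter, mem_range] at hx ⊢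
        exact ⟨hx.1, hx.2.1, x + (k + 1), hx.2.2, by omega⟩)
      (by
        refine le_trans ?_ hg0.le
        refine Nat.cast_le.2 (card_le_card ?_)
        intro x hx
        rw [mem_filter, mem_range] at hx ⊢
        exact ⟨hx.1, hx.2.1, x + 1 + (k + 1), hx.2.2, by omega⟩)
      (by
        intro j hj
        refine ⟨?_, ?_⟩
        · obtain ⟨x, h1, h2, h3⟩ := hw (j * L)
          exact ⟨x, h1, by rw [add_mul, one_mul]; exact h2, h3⟩
        · obtain ⟨x, h1, h2, h3⟩ := hw (j * L + (k + 1))
          rw [add_mul, one_mul] at hj ⊢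
          refine ⟨x - (k + 1), by omega, by omega, ?_⟩
          have : x - (k + 1) + (k + 1) = x := by omega
          rw [this]
          exact h3)
    have h2 : (4 * (1 / (16 * (L : ℝ))) + 4 * (1 / (16 * L))) * N = (N : ℝ) / L / 2 := by
      field_simp
      ring
    rw [h2] at h
    have h3 : (N : ℝ) / L ≤ 2 := by linarith
    rw [div_le_iff₀ hLR] at h3
    have h4 : N ≤ 2 * L := by exact_mod_cast h3
    omega

end Pool.Agent.TG
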