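import Pool.Agent.Lib_helper74.TG.CaseA
import Pool.Agent.Lib_helper47.TA.F2.ZM2

/-!
# Sums and differences of elements of a set that contains an interval of residues
-/

set_option autoImplicit false

namespace Pool.Agent.TG

open Finset Classical

theorem arith (r : ℕ) (hr : 0 < r) (d : ℤ) (hd : IsCoprime d (4 * (r : ℤ) - 1)) (m : ℤ) :
    ∃ g : ℕ, g ≤ 2 ∧ ∃ i j : ℤ, |i| < r ∧ |j| < r ∧ (4 * (r : ℤ) - 1) ∣ m - g - (i + j) * d := by
  obtain ⟨Q, hQ⟩ : ∃ Q : ℤ, Q = 4 * (r : ℤ) - 1 := ⟨_, rfl⟩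
  rw [← hQ] at hd ⊢
  have hQ3 : 3 ≤ Q := by omega
  obtain ⟨e, b, heb⟩ := hd
  obtain ⟨t, ht⟩ : ∃ t : ℤ, t = (m * e) % Q := ⟨_, rfl⟩
  obtain ⟨e₀, he₀⟩ : ∃ e₀ : ℤ, e₀ = e % Q := ⟨_, rfl⟩
  have ht0 : 0 ≤ t := by rw [ht]; exact Int.emod_nonneg _ (by omega)
  have ht1 : t < Q := by rw [ht]; exact Int.emod_lt_of_pos _ (by omega)
  have he0 : 0 ≤ e₀ := by rw [he₀]; exact Int.emod_nonneg _ (by omega)
  have he1 : e₀ < Q := by rw [he₀]; exact Int.emod_lt_of_pos _ (by omega)
  have hne : e₀ ≠ 0 := by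
    intro h
    have h1 : Q ∣ e := Int.dvd_of_emod_eq_zero (by omega)
    have h2 : Q ∣ 1 := by
      rw [← heb]
      exact dvd_add (dvd_mul_of_dvd_left h1 d) (Dvd.intro_left b rfl)
    have h3 := Int.le_of_dvd one_pos h2
    omega
  have hkey : ∃ g : ℕ, g ≤ 2 ∧ ∃ v z : ℤ, t - g * e₀ - v = Q * z ∧ -(2 * (r : ℤ) - 2) ≤ v ∧
      v ≤ 2 * (r : ℤ) - 2 := by
    rcases lt_trichotomy t (2 * (r : ℤ) - 1) with h | h | h
    · exact ⟨0, by omega, t, 0, by push_cast; ring, by omega, by omega⟩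
    · rcases eq_or_ne e₀ (Q - 1) with h1 | h1
      · exact ⟨2, le_rfl, -(2 * (r : ℤ) - 2), -1, by push_cast; rw [h, h1, hQ]; ring, by omega,
          by omega⟩
      · exact ⟨1, by omega, t - e₀, 0, by push_cast; ring, by omega, by omega⟩
    · rcases eq_or_ne t (2 * (r : ℤ)) with h2 | h2
      · rcases eq_or_ne e₀ 1 with h1 | h1
        · exact ⟨2, le_rfl, 2 * (r : ℤ) - 2, 0, by push_cast; rw [h2, h1]; ring, by omega, by omega⟩
        · exact ⟨1, by omega, t - e₀, 0, by push_cast; ring, by omega, by omega⟩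
      · exact ⟨0, by omega, t - Q, 1, by push_cast; ring, by omega, by omega⟩
  obtain ⟨g, hg, v, z, hv, hv1, hv2⟩ := hkey
  have hij : ∃ i j : ℤ, |i| < r ∧ |j| < r ∧ i + j = v := by
    rcases le_total v ((r : ℤ) - 1) with h | h
    · rcases le_total (-((r : ℤ) - 1)) v with h' | h'
      · exact ⟨v, 0, by rw [abs_lt]; omega, by rw [abs_zero]; omega, by ring⟩
      · exact ⟨-((r : ℤ) - 1), v + ((r : ℤ) - 1), by rw [abs_lt]; omega, by rw [abs_lt]; omega,
          by ring⟩
    · exact ⟨(r : ℤ) - 1, v - ((r : ℤ) - 1), by rw [abs_lt]; omega, by rw [abs_lt]; omega, by ring⟩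
  obtain ⟨i, j, hi, hj, hs⟩ := hij
  refine ⟨g, hg, i, j, hi, hj, ?_⟩
  rw [hs]
  have h1 : m * e = t + Q * (m * e / Q) := by
    rw [ht]
    exact (Int.emod_add_mul_ediv _ _).symm
  have h2 : e = e₀ + Q * (e / Q) := by
    rw [he₀]
    exact (Int.emod_add_mul_ediv _ _).symm
  have h3 : m - g - v * d = Q * (d * (m * e / Q) - g * (e / Q) * d + z * d + (m - g) * b) := by
    have h4 : (m - g) * (e * d + b * Q) = m - g := by rw [heb, mul_one]
    have h5 : (m - g) * e - v = Q * (m * e / Q - g * (e / Q) + z) := by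
      have h6 : (m - g) * e = m * e - g * e := by ring
      rw [h6]
      calc m * e - g * e - v = (t + Q * (m * e / Q)) - g * (e₀ + Q * (e / Q)) - v := by
            rw [← h1, ← h2]
        _ = (t - g * e₀ - v) + Q * (m * e / Q - g * (e / Q)) := by ring
        _ = Q * z + Q * (m * e / Q - g * (e / Q)) := by rw [hv]
        _ = Q * (m * e / Q - g * (e / Q) + z) := by ring
    calc m - g - v * d = (m - g) * (e * d + b * Q) - v * d := by rw [h4]
      _ = d * ((m - g) * e - v) + Q * ((m - g) * b) := by ring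
      _ = d * (Q * (m * e / Q - g * (e / Q) + z)) + Q * ((m - g) * b) := by rw [h5]
      _ = Q * (d * (m * e / Q) - g * (e / Q) * d + z * d + (m - g) * b) := by ring
  rw [h3]
  exact Dvd.intro _ rfl

/-- The hypothesis: `A` contains almost all elements of the classes in `J`. -/
def Almost (A : Set ℕ) (r : ℕ) (J : Finset (ZMod (4 * r - 1))) : Prop :=
  ∀ η : ℝ, 0 < η → ∃ L : ℕ, ∀ a N : ℕ, L ≤ N →
    (((range N).filter fun j => ((a + j : ℕ) : ZMod (4 * r - 1)) ∈ J ∧ a + j ∉ A).card : ℝ) ≤ η * N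

/-- Elements of a residue class. -/
theorem class_card (Q : ℕ) (hQ : 0 < Q) (x₀ : ℤ) (M : ℕ) :
    (M : ℝ) / Q - 1 ≤ (((range M).filter fun x : ℕ => (Q : ℤ) ∣ (x : ℤ) - x₀).card : ℝ) := by
  obtain ⟨s, hs⟩ : ∃ s : ℕ, (s : ℤ) = x₀ % Q := by
    refine ⟨(x₀ % Q).toNat, ?_⟩
    exact Int.toNat_of_nonneg (Int.emod_nonneg _ (by omega))
  have hsQ : s < Q := by
    have := Int.emod_lt_of_pos x₀ (by omega : (0 : ℤ) < Q)
    omega
  have h1 : ((range (M / Q)).image fun t => s + Q * t) ⊆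
      (range M).filter fun x : ℕ => (Q : ℤ) ∣ (x : ℤ) - x₀ := by
    intro x hx
    rw [mem_image] at hx
    obtain ⟨t, ht, rfl⟩ := hx
    rw [mem_range] at ht
    rw [mem_filter, mem_range]
    refine ⟨?_, ?_⟩
    · have h2 : (t + 1) * Q ≤ M := (Nat.le_div_iff_mul_le hQ).1 ht
      have h3 : (t + 1) * Q = Q * t + Q := by ring
      omega
    · push_cast
      rw [hs]
      have h2 := Int.emod_add_mul_ediv x₀ Q
      have h3 : x₀ % Q + Q * t - x₀ = Q * (t - x₀ / Q) := by linarith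
      rw [h3]
      exact Dvd.intro _ rfl
  have h2 := card_le_card h1
  rw [card_image_of_injective _ (by
    intro x y hxy
    have h3 : s + Q * x = s + Q * y := hxy
    have h4 : Q * x = Q * y := by omega
    exact Nat.eq_of_mul_eq_mul_left hQ h4), card_range] at h2
  have h3 : (M : ℝ) / Q - 1 ≤ ((M / Q : ℕ) : ℝ) := by
    have hQ' : (0 : ℝ) < Q := by exact_mod_cast hQ
    have h4 : M < (M / Q + 1) * Q := by
      rw [add_mul, one_mul]
      exact Nat.lt_div_mul_add hQ
    have h5 : (M : ℝ) < ((M / Q : ℕ) + 1) * Q := by exact_mod_cast h4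
    have h6 : (M : ℝ) / Q < (M / Q : ℕ) + 1 := by
      rw [div_lt_iff₀ hQ']
      exact h5
    linarith
  refine h3.trans ?_
  exact_mod_cast h2

theorem caseB {A : Set ℕ} (r : ℕ) (hr : 0 < r) (J : Finset (ZMod (4 * r - 1)))
    (hJ : Pool.Agent.TA.Prog r J) (hA : Almost A r J) : Reps A := by
  obtain ⟨d, hd, hdJ⟩ := hJ
  obtain ⟨Q, hQ⟩ : ∃ Q : ℕ, Q = 4 * r - 1 := ⟨_, rfl⟩
  have hQ0 : 0 < Q := by omega
  have hQZ : (Q : ℤ) = 4 * (r : ℤ) - 1 := by omega
  have hQR : (0 : ℝ) < Q := by exact_mod_cast hQ0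
  obtain ⟨L, hL⟩ := hA (1 / (8 * Q)) (by positivity)
  refine ⟨1 / (2 * Q), L + 8 * Q + 8, by positivity, fun N hN => ⟨?_, fun k => ?_⟩⟩
  · obtain ⟨g, hg, i, j, hi, hj, hdvd⟩ := arith r hr d hd N
    refine ⟨g, hg, ?_⟩
    obtain ⟨M, hM⟩ : ∃ M, M = N - g := ⟨_, rfl⟩
    have hcl := class_card Q hQ0 (i * d) M
    have h1 := hL 0 M (by omega)
    -- the elements of the class
    have hsub : ((range M).filter fun x : ℕ => (Q : ℤ) ∣ (x : ℤ) - i * d) ⊆
        ((range N).filter fun x => x ∈ A ∧ ∃ y ∈ A, x + y + g = N) ∪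
        ((range M).filter fun x => ((0 + x : ℕ) : ZMod (4 * r - 1)) ∈ J ∧ 0 + x ∉ A) ∪
        (((range M).filter fun x => ((1 + x : ℕ) : ZMod (4 * r - 1)) ∈ J ∧ 1 + x ∉ A).image
          fun x => M - (1 + x)) := by
      intro x hx
      rw [mem_filter, mem_range] at hx
      obtain ⟨hxM, hxd⟩ := hx
      have hxJ : (x : ZMod (4 * r - 1)) ∈ J := by
        have := hdJ x ⟨i, hi, by rw [← hQZ]; exact hxd⟩
        exact_mod_cast this
      have hyJ : ((M - x : ℕ) : ZMod (4 * r - 1)) ∈ J := by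
        have := hdJ ((M - x : ℕ) : ℤ) ⟨j, hj, by
          rw [← hQZ]
          rw [← hQZ] at hdvd
          have h2 : ((M - x : ℕ) : ℤ) - j * d = ((N : ℤ) - g - (i + j) * d) - ((x : ℤ) - i * d) := by
            have : ((M - x : ℕ) : ℤ) = (N : ℤ) - g - x := by omega
            rw [this]
            ring
          rw [h2]
          exact dvd_sub hdvd hxd⟩
        exact_mod_cast this
      rw [mem_union, mem_union]
      by_cases hxA : x ∈ A
      · by_cases hyA : M - x ∈ A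
        · left; left
          rw [mem_filter, mem_range]
          exact ⟨by omega, hxA, M - x, hyA, by omega⟩
        · right
          rw [mem_image]
          refine ⟨M - x - 1, ?_, by omega⟩
          rw [mem_filter, mem_range]
          have h3 : 1 + (M - x - 1) = M - x := by omega
          rw [h3]
          exact ⟨by omega, hyJ, hyA⟩
      · left; right
        rw [mem_filter, mem_range, zero_add]
        exact ⟨hxM, hxJ, hxA⟩
    have h2 := card_le_card hsub
    have h3 := (card_union_le (((range N).filter fun x => x ∈ A ∧ ∃ y ∈ A, x + y + g = N) ∪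
        ((range M).filter fun x => ((0 + x : ℕ) : ZMod (4 * r - 1)) ∈ J ∧ 0 + x ∉ A))
        (((range M).filter fun x => ((1 + x : ℕ) : ZMod (4 * r - 1)) ∈ J ∧ 1 + x ∉ A).image
          fun x => M - (1 + x)))
    have h4 := card_union_le ((range N).filter fun x => x ∈ A ∧ ∃ y ∈ A, x + y + g = N)
        ((range M).filter fun x => ((0 + x : ℕ) : ZMod (4 * r - 1)) ∈ J ∧ 0 + x ∉ A)
    have h5 : ((((range M).filter fun x => ((1 + x : ℕ) : ZMod (4 * r - 1)) ∈ J ∧
        1 + x ∉ A).image fun x => M - (1 + x)).card : ℝ) ≤ 1 / (8 * Q) * M :=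
      le_trans (Nat.cast_le.2 card_image_le) (hL 1 M (by omega))
    have h6 : (((range M).filter fun x : ℕ => (Q : ℤ) ∣ (x : ℤ) - i * d).card : ℝ) ≤
        (((range N).filter fun x => x ∈ A ∧ ∃ y ∈ A, x + y + g = N).card : ℝ) +
        (((range M).filter fun x => ((0 + x : ℕ) : ZMod (4 * r - 1)) ∈ J ∧ 0 + x ∉ A).card : ℝ) +
        ((((range M).filter fun x => ((1 + x : ℕ) : ZMod (4 * r - 1)) ∈ J ∧ 1 + x ∉ A).image
          fun x => M - (1 + x)).card : ℝ) := by
      exact_mod_cast h2.trans (h3.trans (Nat.add_le_add_right h4 _))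
    have h7 : (M : ℝ) = N - g := by
      rw [hM, Nat.cast_sub (by omega)]
    have hgR : (g : ℝ) ≤ 2 := by exact_mod_cast hg
    have hNR : (8 * Q + 8 : ℝ) ≤ N := by
      have : 8 * Q + 8 ≤ N := by omega
      exact_mod_cast this
    have h8 : (M : ℝ) / Q - 1 - 1 / (8 * Q) * M - 1 / (8 * Q) * M ≤
        (((range N).filter fun x => x ∈ A ∧ ∃ y ∈ A, x + y + g = N).card : ℝ) := by linarith
    refine le_trans ?_ h8
    have h9 : (M : ℝ) / Q - 1 - 1 / (8 * Q) * M - 1 / (8 * Q) * M = 3 / 4 * (M / Q) - 1 := by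
      field_simp
      ring
    have h10 : 1 / (2 * (Q : ℝ)) * N = 1 / 2 * (N / Q) := by
      field_simp
    rw [h9, h10, h7]
    have h11 : ((N : ℝ) - g) / Q = N / Q - g / Q := by ring
    have hQ1 : (3 : ℝ) ≤ Q := by
      have : 3 ≤ Q := by omega
      exact_mod_cast this
    have h12 : (g : ℝ) / Q ≤ 1 := by
      rw [div_le_one hQR]
      linarith
    have h13 : (8 : ℝ) ≤ N / Q := by
      rw [le_div_iff₀ hQR]
      linarith
    rw [h11]
    linarith
  · obtain ⟨g, hg, i, j, hi, hj, hdvd⟩ := arith r hr d hd ((k : ℤ) + 2)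
    refine ⟨g, hg, ?_⟩
    have hcl := class_card Q hQ0 (-i * d) N
    have h1 := hL 0 N (by omega)
    have hsub : ((range N).filter fun x : ℕ => (Q : ℤ) ∣ (x : ℤ) - -i * d) ⊆
        ((range N).filter fun x => x ∈ A ∧ ∃ y ∈ A, x + (k + 2) = y + g) ∪
        ((range N).filter fun x => ((0 + x : ℕ) : ZMod (4 * r - 1)) ∈ J ∧ 0 + x ∉ A) ∪
        ((range N).filter fun x => ((k + 2 - g + x : ℕ) : ZMod (4 * r - 1)) ∈ J ∧
          k + 2 - g + x ∉ A) := by
      intro x hx
      rw [mem_filter, mem_range] at hx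
      obtain ⟨hxM, hxd⟩ := hx
      have hxJ : (x : ZMod (4 * r - 1)) ∈ J := by
        have := hdJ x ⟨-i, by rw [abs_neg]; exact hi, by rw [← hQZ]; exact hxd⟩
        exact_mod_cast this
      have hyJ : ((k + 2 - g + x : ℕ) : ZMod (4 * r - 1)) ∈ J := by
        have := hdJ ((k + 2 - g + x : ℕ) : ℤ) ⟨j, hj, by
          rw [← hQZ]
          rw [← hQZ] at hdvd
          have h2 : ((k + 2 - g + x : ℕ) : ℤ) - j * d =
              ((k : ℤ) + 2 - g - (i + j) * d) + ((x : ℤ) - -i * d) := by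
            have : ((k + 2 - g + x : ℕ) : ℤ) = (k : ℤ) + 2 - g + x := by omega
            rw [this]
            ring
          rw [h2]
          exact dvd_add hdvd hxd⟩
        exact_mod_cast this
      rw [mem_union, mem_union]
      by_cases hxA : x ∈ A
      · by_cases hyA : k + 2 - g + x ∈ A
        · left; left
          rw [mem_filter, mem_range]
          exact ⟨by omega, hxA, k + 2 - g + x, hyA, by omega⟩
        · right
          rw [mem_filter, mem_range]
          exact ⟨hxM, hyJ, hyA⟩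
      · left; right
        rw [mem_filter, mem_range, zero_add]
        exact ⟨hxM, hxJ, hxA⟩
    have h2 := card_le_card hsub
    have h3 := card_union_le (((range N).filter fun x => x ∈ A ∧ ∃ y ∈ A, x + (k + 2) = y + g) ∪
        ((range N).filter fun x => ((0 + x : ℕ) : ZMod (4 * r - 1)) ∈ J ∧ 0 + x ∉ A))
        ((range N).filter fun x => ((k + 2 - g + x : ℕ) : ZMod (4 * r - 1)) ∈ J ∧
          k + 2 - g + x ∉ A)
    have h4 := card_union_le ((range N).filter fun x => x ∈ A ∧ ∃ y ∈ A, x + (k + 2) = y + g)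
        ((range N).filter fun x => ((0 + x : ℕ) : ZMod (4 * r - 1)) ∈ J ∧ 0 + x ∉ A)
    have h5 := hL (k + 2 - g) N (by omega)
    have h6 : (((range N).filter fun x : ℕ => (Q : ℤ) ∣ (x : ℤ) - -i * d).card : ℝ) ≤
        (((range N).filter fun x => x ∈ A ∧ ∃ y ∈ A, x + (k + 2) = y + g).card : ℝ) +
        (((range N).filter fun x => ((0 + x : ℕ) : ZMod (4 * r - 1)) ∈ J ∧ 0 + x ∉ A).card : ℝ) +
        (((range N).filter fun x => ((k + 2 - g + x : ℕ) : ZMod (4 * r - 1)) ∈ J ∧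
          k + 2 - g + x ∉ A).card : ℝ) := by
      exact_mod_cast h2.trans (h3.trans (Nat.add_le_add_right h4 _))
    have hNR : (8 * Q + 8 : ℝ) ≤ N := by
      have : 8 * Q + 8 ≤ N := by omega
      exact_mod_cast this
    have h8 : (N : ℝ) / Q - 1 - 1 / (8 * Q) * N - 1 / (8 * Q) * N ≤
        (((range N).filter fun x => x ∈ A ∧ ∃ y ∈ A, x + (k + 2) = y + g).card : ℝ) := by linarith
    refine le_trans ?_ h8
    have h9 : (N : ℝ) / Q - 1 - 1 / (8 * Q) * N - 1 / (8 * Q) * N = 3 / 4 * (N / Q) - 1 := by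
      field_simp
      ring
    have h10 : 1 / (2 * (Q : ℝ)) * N = 1 / 2 * (N / Q) := by
      field_simp
    rw [h9, h10]
    have h13 : (8 : ℝ) ≤ N / Q := by
      rw [le_div_iff₀ hQR]
      linarith
    linarith

end Pool.Agent.TG
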