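import Mathlib

/-!
# The first gaps between consecutive primes
-/

set_option autoImplicit false

namespace Pool.Agent.TG

open Nat in
theorem consecutive (p g : ℕ) (hp : p.Prime) (hq : (p + g).Prime) (hg : 0 < g)
    (h : ∀ x, p < x → x < p + g → ¬ x.Prime) :
    ∃ m : ℕ, Nat.nth Nat.Prime (m + 1) - Nat.nth Nat.Prime m = g := by
  refine ⟨Nat.count Nat.Prime p, ?_⟩
  have h1 : ∀ t, t < g → Nat.count Nat.Prime (p + (t + 1)) = Nat.count Nat.Prime p + 1 := by
    intro t
    induction t with
    | zero =>
      intro _
      rw [zero_add, Nat.count_succ, if_pos hp]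
    | succ t ih =>
      intro ht
      rw [← add_assoc, Nat.count_succ, ih (by omega), if_neg (h _ (by omega) (by omega))]
  obtain ⟨t, rfl⟩ : ∃ t, g = t + 1 := ⟨g - 1, by omega⟩
  rw [← h1 t (by omega), Nat.nth_count hp, Nat.nth_count hq]
  omega

theorem small_gaps (g : ℕ) (h0 : 0 < g) (h : g ≤ 16) (he : Even g) :
    ∃ m : ℕ, Nat.nth Nat.Prime (m + 1) - Nat.nth Nat.Prime m = g := by
  obtain ⟨t, ht⟩ := he
  have h8 : g = 2 ∨ g = 4 ∨ g = 6 ∨ g = 8 ∨ g = 10 ∨ g = 12 ∨ g = 14 ∨ g = 16 := by omega
  rcases h8 with rfl | rfl | rfl | rfl | rfl | rfl | rfl | rfl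
  · exact consecutive 3 2 (by norm_num) (by norm_num) (by norm_num)
      (by intro x h1 h2; interval_cases x <;> norm_num)
  · exact consecutive 7 4 (by norm_num) (by norm_num) (by norm_num)
      (by intro x h1 h2; interval_cases x <;> norm_num)
  · exact consecutive 23 6 (by norm_num) (by norm_num) (by norm_num)
      (by intro x h1 h2; interval_cases x <;> norm_num)
  · exact consecutive 89 8 (by norm_num) (by norm_num) (by norm_num)
      (by intro x h1 h2; interval_cases x <;> norm_num)
  · exact consecutive 139 10 (by norm_num) (by norm_num) (by norm_num)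
      (by intro x h1 h2; interval_cases x <;> norm_num)
  · exact consecutive 199 12 (by norm_num) (by norm_num) (by norm_num)
      (by intro x h1 h2; interval_cases x <;> norm_num)
  · exact consecutive 113 14 (by norm_num) (by norm_num) (by norm_num)
      (by intro x h1 h2; interval_cases x <;> norm_num)
  · exact consecutive 1831 16 (by norm_num) (by norm_num) (by norm_num)
      (by intro x h1 h2; interval_cases x <;> norm_num)

end Pool.Agent.TG
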