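import Mathlib

/-!
# Sums of two elements of a set of density one half

A set of natural numbers which has at least half of the elements of every long interval represents
one of `m`, `m - 1`, for every large `m`, as a sum of two elements in many ways.
-/

set_option autoImplicit false

namespace Pool.Agent.TG

open Finset Classical

theorem ncard_eq (P : ℕ → Prop) [DecidablePred P] (N : ℕ) :
    ({x : ℕ | P x} ∩ Set.Iio N).ncard = ((range N).filter P).card := by
  rw [← Set.ncard_coe_finset]
  congr 1
  ext x
  simp only [Set.mem_inter_iff, Set.mem_setOf_eq, Set.mem_Iio, coe_filter, mem_range]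
  exact and_comm

theorem card_both_not (N : ℕ) (a b : ℕ → Prop) :
    (((range N).filter fun x => ¬ a x ∧ ¬ b x).card : ℝ) =
      N - ((range N).filter a).card - ((range N).filter b).card +
        ((range N).filter fun x => a x ∧ b x).card := by
  have h1 : ((range N).filter fun x => a x ∨ b x).card +
      ((range N).filter fun x => ¬ (a x ∨ b x)).card = N := by
    rw [card_filter_add_card_filter_not, card_range]
  have h2 : ((range N).filter a ∪ (range N).filter b).card +
      ((range N).filter a ∩ (range N).filter b).card =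
      ((range N).filter a).card + ((range N).filter b).card := card_union_add_card_inter _ _
  rw [← filter_or, ← filter_and] at h2
  have h3 : ((range N).filter fun x => ¬ (a x ∨ b x)) =
      (range N).filter fun x => ¬ a x ∧ ¬ b x := by
    apply filter_congr
    intro x _
    rw [not_or]
  rw [h3] at h1
  have h1' : (((range N).filter fun x => a x ∨ b x).card : ℝ) +
      ((range N).filter fun x => ¬ a x ∧ ¬ b x).card = N := by exact_mod_cast h1
  have h2' : (((range N).filter fun x => a x ∨ b x).card : ℝ) +
      ((range N).filter fun x => a x ∧ b x).card =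
      ((range N).filter a).card + ((range N).filter b).card := by exact_mod_cast h2
  linarith

/-- Few changes are impossible. -/
theorem key (N L : ℕ) (hL : 0 < L) (a b : ℕ → Prop) (ε c : ℝ)
    (h1 : (1 / 2 - ε) * N ≤ ((range N).filter a).card)
    (h2 : (1 / 2 - ε) * N ≤ ((range N).filter b).card)
    (h3 : (1 / 2 - ε) * N ≤ ((range N).filter fun x => b (x + 1)).card)
    (h4 : (((range N).filter fun x => a x ∧ b x).card : ℝ) ≤ c * N)
    (h5 : (((range N).filter fun x => a x ∧ b (x + 1)).card : ℝ) ≤ c * N)
    (hw : ∀ k, (k + 1) * L ≤ N → (∃ x, k * L ≤ x ∧ x < (k + 1) * L ∧ a x) ∧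
      ∃ x, k * L ≤ x ∧ x < (k + 1) * L ∧ b x) :
    (N : ℝ) / L - 1 ≤ (4 * c + 4 * ε) * N := by
  set B1 := (range N).filter fun x => a x ∧ b x with hB1
  set B2 := (range N).filter fun x => a x ∧ b (x + 1) with hB2
  set B3 := (range N).filter fun x => ¬ a x ∧ ¬ b x with hB3
  set B4 := (range N).filter fun x => ¬ a x ∧ ¬ b (x + 1) with hB4
  have hc3 := card_both_not N a b
  have hc4 := card_both_not N a fun x => b (x + 1)
  have hc3' : (B3.card : ℝ) ≤ (2 * ε + c) * N := by
    rw [hB3, hc3]
    nlinarith
  have hc4' : (B4.card : ℝ) ≤ (2 * ε + c) * N := by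
    rw [hB4, hc4]
    nlinarith
  have hsub : range (N / L) ⊆ (B1 ∪ B2 ∪ B3 ∪ B4).image fun x => x / L := by
    intro k hk
    rw [mem_range] at hk
    have hkN : (k + 1) * L ≤ N := (Nat.le_div_iff_mul_le hL).1 hk
    rw [mem_image]
    by_contra hcon
    push Not at hcon
    have hnb : ∀ x, k * L ≤ x → x < (k + 1) * L → (a x ↔ ¬ b x) ∧ (a x ↔ ¬ b (x + 1)) := by
      intro x hx hx'
      have hxN : x < N := lt_of_lt_of_le hx' hkN
      have h6 : x ∉ B1 ∪ B2 ∪ B3 ∪ B4 := by
        intro h
        apply hcon x h
        exact Nat.div_eq_of_lt_le (by rw [mul_comm] at hx; rwa [mul_comm]) (by simpa using hx')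
      simp only [hB1, hB2, hB3, hB4, mem_union, mem_filter, mem_range, hxN, true_and] at h6
      tauto
    have hconst : ∀ t, t < L → (b (k * L + t) ↔ b (k * L)) := by
      intro t
      induction t with
      | zero => intro _; simp
      | succ t ih =>
        intro ht
        have h7 := hnb (k * L + t) (by omega) (by rw [add_mul, one_mul]; omega)
        rw [← ih (by omega), ← add_assoc]
        tauto
    obtain ⟨⟨x, hx, hx', hax⟩, y, hy, hy', hby⟩ := hw k hkN
    have h8 := hconst (x - k * L) (by rw [add_mul, one_mul] at hx'; omega)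
    have h9 := hconst (y - k * L) (by rw [add_mul, one_mul] at hy'; omega)
    rw [Nat.add_sub_cancel' hx] at h8
    rw [Nat.add_sub_cancel' hy] at h9
    have h10 := hnb x hx hx'
    tauto
  have hcard := (card_le_card hsub).trans card_image_le
  rw [card_range] at hcard
  have h11 : (B1 ∪ B2 ∪ B3 ∪ B4).card ≤ B1.card + B2.card + B3.card + B4.card := by
    refine (card_union_le _ _).trans (Nat.add_le_add_right ?_ _)
    refine (card_union_le _ _).trans (Nat.add_le_add_right ?_ _)
    exact card_union_le _ _
  have h12 : ((N / L : ℕ) : ℝ) ≤ B1.card + B2.card + B3.card + B4.card := by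
    exact_mod_cast hcard.trans h11
  have h13 : (N : ℝ) / L - 1 ≤ ((N / L : ℕ) : ℝ) := by
    have h14 : (N : ℝ) < ((N / L : ℕ) + 1) * L := by
      have := Nat.lt_div_mul_add (a := N) hL
      have h15 : N < (N / L + 1) * L := by rw [add_mul, one_mul]; exact this
      exact_mod_cast h15
    have hL' : (0 : ℝ) < L := by exact_mod_cast hL
    have h16 : (N : ℝ) / L < (N / L : ℕ) + 1 := by
      rw [div_lt_iff₀ hL']
      exact h14
    linarith
  nlinarith

end Pool.Agent.TG
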