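import Pool.Agent.Lib_helper23.BG4F.HIT4
import Pool.Agent.Lib_helper47.TA.F2.FIN2
import Pool.Agent.Lib_helper74.TG.CaseB
import Pool.Agent.Lib_helper74.TG.Gaps

/-!
# Every large even number is the sum of at most three gaps between consecutive primes
-/

set_option autoImplicit false

namespace Pool.Agent.TG

open Finset Classical

theorem reps_of_bins (D : Set ℕ) (k : ℕ) (hD : Pool.Agent.Lib_helper23.PG.HitsBins 4 k D) :
    Reps {x : ℕ | 6 * x ∈ D} := by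
  by_cases h : ∀ ε : ℝ, 0 < ε → ∃ L : ℕ, ∀ a N : ℕ, L ≤ N →
      (1 / 2 - ε) * N ≤ (({j : ℕ | 6 * (a + j) ∈ D} ∩ Set.Iio N).ncard : ℝ)
  · apply caseA
    intro ε hε
    obtain ⟨L, hL⟩ := h ε hε
    refine ⟨L, fun a N hN => ?_⟩
    have h1 := hL a N hN
    rw [ncard_eq] at h1
    exact h1
  · push Not at h
    obtain ⟨ε, hε, h⟩ := h
    rcases Pool.Agent.TA.ta_windows2 D k hD 6 (by norm_num) (dvd_refl 6) ε hε with
      ⟨L, hL⟩ | ⟨r, J, hr, hJ, -, hη⟩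
    · obtain ⟨a, N, hN, hlt⟩ := h L
      exact absurd (hL a N hN) (not_le.2 hlt)
    · refine caseB r hr J hJ fun η h1 => ?_
      obtain ⟨L, hL⟩ := hη η h1
      refine ⟨L, fun a N hN => ?_⟩
      have h2 := hL a N hN
      rw [ncard_eq] at h2
      exact h2

/-- From sums in `A` to sums in `D`. -/
theorem of_reps (D G : Set ℕ) (hG : ∀ g, 0 < g → g ≤ 16 → Even g → g ∈ G)
    (h : Reps {x : ℕ | 6 * x ∈ D}) :
    ∃ (c : ℝ) (N : ℕ), 0 < c ∧ ∀ n : ℕ, N ≤ n →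
      (Even n → c * n ≤ ({d : ℕ | d ∈ D ∧ ∃ d' ∈ D, ∃ g : ℕ, g ≤ 16 ∧ (g = 0 ∨ g ∈ G) ∧
        d + d' + g = n}.ncard : ℝ)) ∧
      ∀ k : ℕ, Even k → c * n ≤ ({d : ℕ | d ∈ D ∧ d ≤ n ∧ ∃ d' ∈ D, ∃ g : ℕ, g ≤ 16 ∧
        (g = 0 ∨ g ∈ G) ∧ d' + g = d + k}.ncard : ℝ) := by
  obtain ⟨c, N₀, hc, h⟩ := h
  have hG' : ∀ g, g ≤ 16 → Even g → g = 0 ∨ g ∈ G := by
    intro g h1 h2
    rcases Nat.eq_zero_or_pos g with h3 | h3
    · exact Or.inl h3
    · exact Or.inr (hG g h3 h1 h2)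
  refine ⟨c / 12, 6 * N₀ + 12, by positivity, fun n hn => ⟨fun he => ?_, fun k hk => ?_⟩⟩
  · obtain ⟨m, hm⟩ : ∃ m, m = n / 6 := ⟨_, rfl⟩
    obtain ⟨s, hs⟩ : ∃ s, n = 6 * m + 2 * s ∧ s ≤ 2 := by
      obtain ⟨t, ht⟩ := he
      exact ⟨(n - 6 * m) / 2, by omega, by omega⟩
    obtain ⟨g, hg, hcard⟩ := (h m (by omega)).1
    have hfin : {d : ℕ | d ∈ D ∧ ∃ d' ∈ D, ∃ g : ℕ, g ≤ 16 ∧ (g = 0 ∨ g ∈ G) ∧
        d + d' + g = n}.Finite := by
      refine (Set.finite_Iic n).subset ?_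
      rintro d ⟨_, d', _, g, _, _, h1⟩
      rw [Set.mem_Iic]
      omega
    have h1 : (((range m).filter fun x => x ∈ {x : ℕ | 6 * x ∈ D} ∧
        ∃ y ∈ {x : ℕ | 6 * x ∈ D}, x + y + g = m).image fun x => 6 * x).card ≤
        {d : ℕ | d ∈ D ∧ ∃ d' ∈ D, ∃ g : ℕ, g ≤ 16 ∧ (g = 0 ∨ g ∈ G) ∧
          d + d' + g = n}.ncard := by
      rw [← Set.ncard_coe_finset]
      refine Set.ncard_le_ncard ?_ hfin
      intro d hd
      rw [mem_coe, mem_image] at hd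
      obtain ⟨x, hx, rfl⟩ := hd
      rw [mem_filter, mem_range] at hx
      obtain ⟨-, hxA, y, hyA, hxy⟩ := hx
      exact ⟨hxA, 6 * y, hyA, 6 * g + 2 * s, by omega, hG' _ (by omega) ⟨3 * g + s, by ring⟩,
        by omega⟩
    rw [card_image_of_injective _ (fun x y hxy => by simpa using hxy)] at h1
    refine le_trans (le_trans ?_ hcard) (Nat.cast_le.2 h1)
    have h2 : (n : ℝ) ≤ 12 * m := by
      have : n ≤ 12 * m := by omega
      exact_mod_cast this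
    nlinarith
  · obtain ⟨m, hm⟩ : ∃ m, m = n / 6 := ⟨_, rfl⟩
    have h2 : (n : ℝ) ≤ 12 * m := by
      have : n ≤ 12 * m := by omega
      exact_mod_cast this
    have hfin : {d : ℕ | d ∈ D ∧ d ≤ n ∧ ∃ d' ∈ D, ∃ g : ℕ, g ≤ 16 ∧
        (g = 0 ∨ g ∈ G) ∧ d' + g = d + k}.Finite :=
      (Set.finite_Iic n).subset fun d hd => hd.2.1
    rcases le_or_gt k 16 with hk16 | hk16
    · obtain ⟨g, hg, hcard⟩ := (h m (by omega)).1
      have h1 : (((range m).filter fun x => x ∈ {x : ℕ | 6 * x ∈ D} ∧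
          ∃ y ∈ {x : ℕ | 6 * x ∈ D}, x + y + g = m).image fun x => 6 * x).card ≤
          {d : ℕ | d ∈ D ∧ d ≤ n ∧ ∃ d' ∈ D, ∃ g : ℕ, g ≤ 16 ∧
            (g = 0 ∨ g ∈ G) ∧ d' + g = d + k}.ncard := by
        rw [← Set.ncard_coe_finset]
        refine Set.ncard_le_ncard ?_ hfin
        intro d hd
        rw [mem_coe, mem_image] at hd
        obtain ⟨x, hx, rfl⟩ := hd
        rw [mem_filter, mem_range] at hx
        exact ⟨hx.2.1, by omega, 6 * x, hx.2.1, k, hk16, hG' k hk16 hk, rfl⟩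
      rw [card_image_of_injective _ (fun x y hxy => by simpa using hxy)] at h1
      refine le_trans (le_trans ?_ hcard) (Nat.cast_le.2 h1)
      nlinarith
    · obtain ⟨q, s, hs, hs2⟩ : ∃ q s, k = 6 * (q + 2) + 2 * s ∧ s ≤ 2 := by
        obtain ⟨t, ht⟩ := hk
        exact ⟨k / 6 - 2, (k - 6 * (k / 6)) / 2, by omega, by omega⟩
      obtain ⟨g, hg, hcard⟩ := (h m (by omega)).2 q
      have h1 : (((range m).filter fun x => x ∈ {x : ℕ | 6 * x ∈ D} ∧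
          ∃ y ∈ {x : ℕ | 6 * x ∈ D}, x + (q + 2) = y + g).image fun x => 6 * x).card ≤
          {d : ℕ | d ∈ D ∧ d ≤ n ∧ ∃ d' ∈ D, ∃ g : ℕ, g ≤ 16 ∧
            (g = 0 ∨ g ∈ G) ∧ d' + g = d + k}.ncard := by
        rw [← Set.ncard_coe_finset]
        refine Set.ncard_le_ncard ?_ hfin
        intro d hd
        rw [mem_coe, mem_image] at hd
        obtain ⟨x, hx, rfl⟩ := hd
        rw [mem_filter, mem_range] at hx
        obtain ⟨hxm, hxA, y, hyA, hxy⟩ := hx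
        exact ⟨hxA, by omega, 6 * y, hyA, 6 * g + 2 * s, by omega,
          hG' _ (by omega) ⟨3 * g + s, by ring⟩, by omega⟩
      rw [card_image_of_injective _ (fun x y hxy => by simpa using hxy)] at h1
      refine le_trans (le_trans ?_ hcard) (Nat.cast_le.2 h1)
      nlinarith

end Pool.Agent.TG
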